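import Pool.Agent.Work.MP_db9399_bg.Base
import Pool.Agent.Work.MP_db9399_exp_helper31.REG

/-! MP_db9399, THEOREM BIG: block FAC (disjoint matchings which cover everything outside the
optional vertices). -/

set_option autoImplicit false

namespace Pool.Agent.Work.MP_db9399_bg.helper31

open Finset Classical
open Pool.Agent.Work.MP_db9399_all (nb)
open Pool.Agent.Work.MP_db9399_dn (IsMat)
open Pool.Agent.Work.MP_db9399_bg

universe u

section
variable {V : Type u} [Fintype V]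

/-- double counting -/
lemma sum_nb_comm (G : SimpleGraph V) (X Y : Finset V) :
    ∑ x ∈ X, ((nb G x ∩ Y).card : ℝ) = ∑ y ∈ Y, ((nb G y ∩ X).card : ℝ) := by
  have key : ∀ (P Q : Finset V), ∑ x ∈ P, ((nb G x ∩ Q).card : ℝ) =
      ∑ x ∈ P, ∑ y ∈ Q, (if G.Adj x y then (1 : ℝ) else 0) := by
    intro P Q
    refine Finset.sum_congr rfl fun x _ => ?_
    rw [← Finset.sum_filter, Finset.sum_const, nsmul_eq_mul, mul_one]
    congr 2
    ext y
    rw [mem_inter, mem_nb, mem_filter]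
    exact and_comm
  rw [key, key, Finset.sum_comm]
  refine Finset.sum_congr rfl fun y _ => Finset.sum_congr rfl fun x _ => ?_
  simp only [G.adj_comm]

/-- the main inequality (*) -/
lemma star (G : SimpleGraph V) (q μ o δ : ℝ) (D : ℕ) (A A' Op : Finset V)
    (hq : 0 < q) (hμ : 0 < μ) (hμ1 : μ ≤ 1) (ho : 0 < o) (ho1 : o ≤ 1) (hδ : 0 ≤ δ)
    (hδ1 : 20 * δ ≤ μ * o) (hD : (D : ℝ) ≤ (1 - μ) * q)
    (h1 : ∀ v ∈ A, |((nb G v ∩ A').card : ℝ) - q| ≤ δ * q)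
    (h2 : ∀ v ∈ A', |((nb G v ∩ A).card : ℝ) - q| ≤ δ * q)
    (h3 : ∀ v ∈ A', o * q ≤ ((nb G v ∩ A ∩ Op).card : ℝ))
    (X Y : Finset V) (hX : X ⊆ A) (hXO : Disjoint X Op) (hY : Y ⊆ A') :
    (D : ℝ) * X.card ≤ (∑ x ∈ X, ((nb G x ∩ (A' \ Y)).card : ℝ)) + D * Y.card := by
  have hD0 : (0 : ℝ) ≤ D := Nat.cast_nonneg _
  have hE0 : 0 ≤ ∑ x ∈ X, ((nb G x ∩ (A' \ Y)).card : ℝ) :=
    Finset.sum_nonneg fun _ _ => Nat.cast_nonneg _
  rcases le_or_gt (X.card : ℝ) Y.card with hXY | hXY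
  · nlinarith
  have hY0 : (0 : ℝ) ≤ Y.card := Nat.cast_nonneg _
  have hX0 : (0 : ℝ) < X.card := lt_of_le_of_lt hY0 hXY
  -- edges from X
  have e1 : (1 - δ) * q * X.card ≤ ∑ x ∈ X, ((nb G x ∩ A').card : ℝ) := by
    rw [mul_comm, ← nsmul_eq_mul, ← Finset.sum_const]
    refine Finset.sum_le_sum fun x hx => ?_
    have := (abs_le.1 (h1 x (hX hx))).1
    nlinarith
  have e2 : ∑ x ∈ X, ((nb G x ∩ A').card : ℝ) = (∑ x ∈ X, ((nb G x ∩ Y).card : ℝ)) +
      ∑ x ∈ X, ((nb G x ∩ (A' \ Y)).card : ℝ) := by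
    rw [← Finset.sum_add_distrib]
    refine Finset.sum_congr rfl fun x _ => ?_
    rw [← Nat.cast_add, ← Finset.card_union_of_disjoint]
    · congr 2
      ext y
      simp only [mem_inter, mem_union, mem_sdiff]
      constructor
      · rintro ⟨ha, hb⟩
        by_cases hy : y ∈ Y
        · exact Or.inl ⟨ha, hy⟩
        · exact Or.inr ⟨ha, hb, hy⟩
      · rintro (⟨ha, hb⟩ | ⟨ha, hb, -⟩)
        · exact ⟨ha, hY hb⟩
        · exact ⟨ha, hb⟩
    · rw [Finset.disjoint_left]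
      intro y hy hy'
      exact (mem_sdiff.1 (mem_inter.1 hy').2).2 (mem_inter.1 hy).2
  have e3 := sum_nb_comm G X Y
  -- edges from Y
  have e4 : ∑ y ∈ Y, ((nb G y ∩ A).card : ℝ) ≤ (1 + δ) * q * Y.card := by
    rw [mul_comm ((1 + δ) * q), ← nsmul_eq_mul, ← Finset.sum_const]
    refine Finset.sum_le_sum fun y hy => ?_
    have := (abs_le.1 (h2 y (hY hy))).2
    nlinarith
  have e5 : (∑ y ∈ Y, ((nb G y ∩ X).card : ℝ)) + o * q * Y.card ≤
      ∑ y ∈ Y, ((nb G y ∩ A).card : ℝ) := by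
    rw [mul_comm (o * q), ← nsmul_eq_mul, ← Finset.sum_const, ← Finset.sum_add_distrib]
    refine Finset.sum_le_sum fun y hy => ?_
    refine (add_le_add_right (h3 y (hY hy)) _).trans ?_
    rw [← Nat.cast_add, ← Finset.card_union_of_disjoint]
    · exact_mod_cast card_le_card (by
        intro z hz
        rcases mem_union.1 hz with hz | hz
        · exact mem_inter.2 ⟨(mem_inter.1 hz).1, hX (mem_inter.1 hz).2⟩
        · exact (mem_inter.1 hz).1)
    · rw [Finset.disjoint_left]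
      intro z hz hz'
      exact (Finset.disjoint_left.1 hXO (mem_inter.1 hz).2) (mem_inter.1 hz').2
  have e6 : ∑ y ∈ Y, ((nb G y ∩ X).card : ℝ) ≤ ∑ y ∈ Y, ((nb G y ∩ A).card : ℝ) :=
    Finset.sum_le_sum fun y _ => by
      exact_mod_cast card_le_card (Finset.inter_subset_inter_left hX)
  set E := ∑ x ∈ X, ((nb G x ∩ (A' \ Y)).card : ℝ) with hE
  set x : ℝ := ((X.card : ℕ) : ℝ)
  set y : ℝ := ((Y.card : ℕ) : ℝ)
  -- all in terms of real numbers
  have f1 : (1 - δ) * q * x ≤ (1 + δ) * q * y + E := by linarith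
  have f2 : (1 - δ) * q * x + o * q * y ≤ (1 + δ) * q * y + E := by linarith
  by_contra hcon
  push Not at hcon
  have g1 : E < D * (x - y) := by nlinarith
  have g2 : (D : ℝ) * (x - y) ≤ (1 - μ) * q * (x - y) :=
    mul_le_mul_of_nonneg_right hD (by linarith)
  -- from f1: (1 - δ) x ≤ (1 + δ) y + (1 - μ) (x - y)
  have g3 : q * ((1 - δ) * x) < q * ((1 + δ) * y + (1 - μ) * (x - y)) := by nlinarith
  have g4 : (1 - δ) * x < (1 + δ) * y + (1 - μ) * (x - y) := lt_of_mul_lt_mul_left g3 hq.le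
  have g5 : q * ((1 - δ) * x + o * y) < q * ((1 + δ) * y + (1 - μ) * (x - y)) := by nlinarith
  have g6 : (1 - δ) * x + o * y < (1 + δ) * y + (1 - μ) * (x - y) := lt_of_mul_lt_mul_left g5 hq.le
  -- μ (x - y) < δ (x + y) and μ (x - y) + o y < δ (x + y)
  have g7 : μ * (x - y) + o * y < δ * (x + y) := by linarith
  have g8 : μ * (x - y) < δ * (x + y) := by linarith
  -- δ ≤ μ o / 20
  have g9 : 20 * (δ * (x + y)) ≤ μ * o * (x + y) := by nlinarith
  have g10 : μ * o * (x + y) ≤ μ * (x + y) := by nlinarith [mul_le_mul_of_nonneg_left ho1 hμ.le]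
  have g11 : μ * (20 * (x - y)) < μ * (x + y) := by nlinarith
  have g12 : 20 * (x - y) < x + y := lt_of_mul_lt_mul_left g11 hμ.le
  have g13 : μ * o * (x + y) ≤ o * (x + y) := by
    have : μ * (o * (x + y)) ≤ 1 * (o * (x + y)) :=
      mul_le_mul_of_nonneg_right hμ1 (by positivity)
    nlinarith
  have g14 : o * (20 * y) < o * (x + y) := by nlinarith [mul_nonneg hμ.le (sub_nonneg.2 hXY.le)]
  have g15 : 20 * y < x + y := lt_of_mul_lt_mul_left g14 ho.le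
  linarith

/-- a linear function is nonnegative if it is at both ends -/
lemma lin {p s b z : ℝ} (h0 : 0 ≤ p) (h1 : 0 ≤ p + s * b) (hz : 0 ≤ z) (hzb : z ≤ b) :
    0 ≤ p + s * z := by
  rcases le_total 0 s with hs | hs
  · nlinarith
  · nlinarith

end

section
variable {V : Type u} [Fintype V]

/-- the relation with dummies -/
def RlF (G : SimpleGraph V) (A A' Op : Finset V) (S S' : Type u) : (A ⊕ S') → (A' ⊕ S) → Prop
  | Sum.inl x, Sum.inl y => G.Adj x.1 y.1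
  | Sum.inl x, Sum.inr _ => x.1 ∈ Op
  | Sum.inr _, Sum.inl y => y.1 ∈ Op
  | Sum.inr _, Sum.inr _ => True

/-- a set of elements of a sum type -/
noncomputable def lf {A : Finset V} {S : Type u} (X : Finset (A ⊕ S)) : Finset V :=
  A.filter (fun v => ∃ h : v ∈ A, Sum.inl ⟨v, h⟩ ∈ X)

noncomputable def rt {A : Finset V} {S : Type u} [Fintype S] (X : Finset (A ⊕ S)) : Finset S :=
  univ.filter (fun v => Sum.inr v ∈ X)

omit [Fintype V] in
lemma mem_lf {A : Finset V} {S : Type u} (X : Finset (A ⊕ S)) (x : A) :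
    x.1 ∈ lf X ↔ Sum.inl x ∈ X := by
  unfold lf
  rw [mem_filter]
  constructor
  · rintro ⟨-, h, hx⟩
    exact hx
  · intro h
    exact ⟨x.2, x.2, h⟩

omit [Fintype V] in
lemma mem_rt {A : Finset V} {S : Type u} [Fintype S] (X : Finset (A ⊕ S)) (x : S) :
    x ∈ rt X ↔ Sum.inr x ∈ X := by
  unfold rt
  rw [mem_filter]
  simp

omit [Fintype V] in
lemma lf_sub {A : Finset V} {S : Type u} (X : Finset (A ⊕ S)) : lf X ⊆ A := filter_subset _ _

lemma sum_ind {S : Type u} [Fintype S] (C : Finset S) :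
    ∑ x : S, (if x ∈ C then (1 : ℝ) else 0) = C.card := by
  rw [← Finset.sum_filter, Finset.sum_const, nsmul_eq_mul, mul_one]
  congr 2
  ext x
  simp

omit [Fintype V] in
lemma sum_ind_sub {B C : Finset V} (hC : C ⊆ B) :
    ∑ x : B, (if x.1 ∈ C then (1 : ℝ) else 0) = C.card := by
  rw [Finset.sum_coe_sort B (fun v => if v ∈ C then (1 : ℝ) else 0), ← Finset.sum_filter,
    Finset.sum_const, nsmul_eq_mul, mul_one]
  congr 2
  ext x
  rw [mem_filter]
  exact ⟨fun h => h.2, fun h => ⟨hC h, h⟩⟩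

omit [Fintype V] in
lemma card_split {A : Finset V} {S : Type u} [Fintype S] (X : Finset (A ⊕ S)) :
    (X.card : ℝ) = (lf X).card + (rt X).card := by
  have h0 : (X.card : ℝ) = ∑ x : A ⊕ S, (if x ∈ X then (1 : ℝ) else 0) := by
    rw [← Finset.sum_filter, Finset.sum_const, nsmul_eq_mul, mul_one]
    congr 2
    ext x
    simp
  rw [h0, Fintype.sum_sum_type, ← sum_ind_sub (lf_sub X), ← sum_ind (rt X)]
  congr 1
  · refine Finset.sum_congr rfl fun x _ => ?_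
    simp only [mem_lf]
  · refine Finset.sum_congr rfl fun x _ => ?_
    simp only [mem_rt]

omit [Fintype V] in
lemma sum_sub (B : Finset V) (f : V → ℝ) : ∑ x : B, f x.1 = ∑ x ∈ B, f x :=
  Finset.sum_coe_sort B f

/-- counting the edges -/
lemma edge_count (G : SimpleGraph V) (A A' Op : Finset V) (S S' : Type u) [Fintype S] [Fintype S']
    (X : Finset (A ⊕ S')) (Y : Finset (A' ⊕ S)) :
    ((univ.filter (fun e : (A ⊕ S') × (A' ⊕ S) => e.1 ∈ X ∧ e.2 ∉ Y ∧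
      RlF G A A' Op S S' e.1 e.2)).card : ℝ) =
    (∑ x ∈ lf X, ((nb G x ∩ (A' \ lf Y)).card : ℝ)) +
      ((lf X ∩ Op).card : ℝ) * ((rt Y)ᶜ).card +
      ((rt X).card : ℝ) * ((A' \ lf Y) ∩ Op).card + ((rt X).card : ℝ) * ((rt Y)ᶜ).card := by
  have h0 : ((univ.filter (fun e : (A ⊕ S') × (A' ⊕ S) => e.1 ∈ X ∧ e.2 ∉ Y ∧
      RlF G A A' Op S S' e.1 e.2)).card : ℝ) = ∑ x : A ⊕ S', ∑ y : A' ⊕ S,
        (if x ∈ X ∧ y ∉ Y ∧ RlF G A A' Op S S' x y then (1 : ℝ) else 0) := by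
    rw [← Fintype.sum_prod_type'
      (fun (x : A ⊕ S') (y : A' ⊕ S) =>
        if x ∈ X ∧ y ∉ Y ∧ RlF G A A' Op S S' x y then (1 : ℝ) else 0),
      ← Finset.sum_filter, Finset.sum_const, nsmul_eq_mul, mul_one]
  have s1 : ∑ x : A, ∑ y : A', (if Sum.inl x ∈ X ∧ Sum.inl y ∉ Y ∧
      RlF G A A' Op S S' (Sum.inl x) (Sum.inl y) then (1 : ℝ) else 0) =
      ∑ x ∈ lf X, ((nb G x ∩ (A' \ lf Y)).card : ℝ) := by
    have a1 : ∀ x : A, ∑ y : A', (if Sum.inl x ∈ X ∧ Sum.inl y ∉ Y ∧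
        RlF G A A' Op S S' (Sum.inl x) (Sum.inl y) then (1 : ℝ) else 0) =
        (fun v : V => if v ∈ lf X then ((nb G v ∩ (A' \ lf Y)).card : ℝ) else 0) x.1 := by
      intro x
      simp only [← mem_lf]
      by_cases hx : x.1 ∈ lf X
      · simp only [hx, true_and, if_true, RlF]
        rw [sum_sub A' (fun v => if v ∉ lf Y ∧ G.Adj x.1 v then (1 : ℝ) else 0),
          ← Finset.sum_filter, Finset.sum_const, nsmul_eq_mul, mul_one]
        congr 2
        ext y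
        simp only [mem_filter, mem_inter, mem_nb, mem_sdiff]
        tauto
      · simp [hx]
    rw [Finset.sum_congr rfl fun x _ => a1 x, sum_sub A
      (fun v : V => if v ∈ lf X then ((nb G v ∩ (A' \ lf Y)).card : ℝ) else 0),
      ← Finset.sum_filter, Finset.filter_mem_eq_inter, Finset.inter_eq_right.2 (lf_sub X)]
  have s2 : ∑ x : A, ∑ y : S, (if Sum.inl x ∈ X ∧ Sum.inr y ∉ Y ∧
      RlF G A A' Op S S' (Sum.inl x) (Sum.inr y) then (1 : ℝ) else 0) =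
      ((lf X ∩ Op).card : ℝ) * ((rt Y)ᶜ).card := by
    have a1 : ∀ (x : A) (y : S), (if Sum.inl x ∈ X ∧ Sum.inr y ∉ Y ∧
        RlF G A A' Op S S' (Sum.inl x) (Sum.inr y) then (1 : ℝ) else 0) =
        (if x.1 ∈ lf X ∩ Op then (1 : ℝ) else 0) * (if y ∈ (rt Y)ᶜ then (1 : ℝ) else 0) := by
      intro x y
      simp only [← mem_lf, ← mem_rt, RlF, mem_inter, mem_compl]
      by_cases h1 : x.1 ∈ lf X <;> by_cases h2 : x.1 ∈ Op <;> by_cases h3 : y ∈ rt Y <;>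
        simp [h1, h2, h3]
    rw [Finset.sum_congr rfl fun x _ => Finset.sum_congr rfl fun y _ => a1 x y,
      ← Finset.sum_mul_sum, sum_ind_sub (inter_subset_left.trans (lf_sub X)), sum_ind]
  have s3 : ∑ x : S', ∑ y : A', (if Sum.inr x ∈ X ∧ Sum.inl y ∉ Y ∧
      RlF G A A' Op S S' (Sum.inr x) (Sum.inl y) then (1 : ℝ) else 0) =
      ((rt X).card : ℝ) * ((A' \ lf Y) ∩ Op).card := by
    have a1 : ∀ (x : S') (y : A'), (if Sum.inr x ∈ X ∧ Sum.inl y ∉ Y ∧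
        RlF G A A' Op S S' (Sum.inr x) (Sum.inl y) then (1 : ℝ) else 0) =
        (if x ∈ rt X then (1 : ℝ) else 0) *
        (if y.1 ∈ (A' \ lf Y) ∩ Op then (1 : ℝ) else 0) := by
      intro x y
      simp only [← mem_lf, ← mem_rt, RlF, mem_inter, mem_sdiff, y.2, true_and]
      by_cases h1 : x ∈ rt X <;> by_cases h2 : y.1 ∈ Op <;> by_cases h3 : y.1 ∈ lf Y <;>
        simp [h1, h2, h3]
    rw [Finset.sum_congr rfl fun x _ => Finset.sum_congr rfl fun y _ => a1 x y,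
      ← Finset.sum_mul_sum, sum_ind, sum_ind_sub (inter_subset_left.trans sdiff_subset)]
  have s4 : ∑ x : S', ∑ y : S, (if Sum.inr x ∈ X ∧ Sum.inr y ∉ Y ∧
      RlF G A A' Op S S' (Sum.inr x) (Sum.inr y) then (1 : ℝ) else 0) =
      ((rt X).card : ℝ) * ((rt Y)ᶜ).card := by
    have a1 : ∀ (x : S') (y : S), (if Sum.inr x ∈ X ∧ Sum.inr y ∉ Y ∧
        RlF G A A' Op S S' (Sum.inr x) (Sum.inr y) then (1 : ℝ) else 0) =
        (if x ∈ rt X then (1 : ℝ) else 0) * (if y ∈ (rt Y)ᶜ then (1 : ℝ) else 0) := by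
      intro x y
      simp only [← mem_rt, RlF, mem_compl, and_true]
      by_cases h1 : x ∈ rt X <;> by_cases h3 : y ∈ rt Y <;>
        simp [h1, h3]
    rw [Finset.sum_congr rfl fun x _ => Finset.sum_congr rfl fun y _ => a1 x y,
      ← Finset.sum_mul_sum, sum_ind, sum_ind]
  rw [h0, Fintype.sum_sum_type]
  have t1 : ∀ x : A, ∑ y : A' ⊕ S, (if Sum.inl x ∈ X ∧ y ∉ Y ∧
      RlF G A A' Op S S' (Sum.inl x) y then (1 : ℝ) else 0) =
      (∑ y : A', (if Sum.inl x ∈ X ∧ Sum.inl y ∉ Y ∧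
        RlF G A A' Op S S' (Sum.inl x) (Sum.inl y) then (1 : ℝ) else 0)) +
      ∑ y : S, (if Sum.inl x ∈ X ∧ Sum.inr y ∉ Y ∧
        RlF G A A' Op S S' (Sum.inl x) (Sum.inr y) then (1 : ℝ) else 0) :=
    fun x => Fintype.sum_sum_type _
  have t2 : ∀ x : S', ∑ y : A' ⊕ S, (if Sum.inr x ∈ X ∧ y ∉ Y ∧
      RlF G A A' Op S S' (Sum.inr x) y then (1 : ℝ) else 0) =
      (∑ y : A', (if Sum.inr x ∈ X ∧ Sum.inl y ∉ Y ∧
        RlF G A A' Op S S' (Sum.inr x) (Sum.inl y) then (1 : ℝ) else 0)) +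
      ∑ y : S, (if Sum.inr x ∈ X ∧ Sum.inr y ∉ Y ∧
        RlF G A A' Op S S' (Sum.inr x) (Sum.inr y) then (1 : ℝ) else 0) :=
    fun x => Fintype.sum_sum_type _
  rw [Finset.sum_congr rfl fun x _ => t1 x, Finset.sum_congr rfl fun x _ => t2 x,
    Finset.sum_add_distrib, Finset.sum_add_distrib, s1, s2, s3, s4]
  ring

end

/-- the inequality for REG -/
lemma reg_ineq {V : Type u} [Fintype V] (G : SimpleGraph V) (q μ o δ : ℝ) (D : ℕ)
    (A A' Op : Finset V) (hq : 0 < q) (hμ : 0 < μ) (hμ1 : μ ≤ 1) (ho : 0 < o) (ho1 : o ≤ 1)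
    (hδ : 0 ≤ δ) (hδ1 : 20 * δ ≤ μ * o) (hD : (D : ℝ) ≤ (1 - μ) * q)
    (h1 : ∀ v ∈ A, |((nb G v ∩ A').card : ℝ) - q| ≤ δ * q)
    (h2 : ∀ v ∈ A', |((nb G v ∩ A).card : ℝ) - q| ≤ δ * q)
    (h3 : ∀ v ∈ A, o * q ≤ ((nb G v ∩ A' ∩ Op).card : ℝ))
    (h4 : ∀ v ∈ A', o * q ≤ ((nb G v ∩ A ∩ Op).card : ℝ))
    (S S' : Type u) [Fintype S] [Fintype S'] (hcS : Fintype.card S = A.card + 2 * D)
    (hcS' : Fintype.card S' = A'.card + 2 * D) (X : Finset (A ⊕ S')) (Y : Finset (A' ⊕ S)) :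
    D * X.card ≤ (univ.filter (fun e : (A ⊕ S') × (A' ⊕ S) =>
        e.1 ∈ X ∧ e.2 ∉ Y ∧ RlF G A A' Op S S' e.1 e.2)).card + D * Y.card := by
  have hD0 : (0 : ℝ) ≤ D := Nat.cast_nonneg _
  have hR : (D : ℝ) * X.card ≤ ((univ.filter (fun e : (A ⊕ S') × (A' ⊕ S) =>
      e.1 ∈ X ∧ e.2 ∉ Y ∧ RlF G A A' Op S S' e.1 e.2)).card : ℝ) + D * Y.card := by
    rw [edge_count, card_split X, card_split Y]
    have k1 := star G q μ o δ D A A' Op hq hμ hμ1 ho ho1 hδ hδ1 hD h1 h2 h4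
      (lf X \ Op) (lf Y) (sdiff_subset.trans (lf_sub X)) (Finset.sdiff_disjoint) (lf_sub Y)
    have k2 := star G q μ o δ D A' A Op hq hμ hμ1 ho ho1 hδ hδ1 hD h2 h1 h3
      ((A' \ lf Y) \ Op) (A \ lf X) (sdiff_subset.trans sdiff_subset)
      (Finset.sdiff_disjoint) sdiff_subset
    have k3 : ∑ x ∈ lf X \ Op, ((nb G x ∩ (A' \ lf Y)).card : ℝ) ≤
        ∑ x ∈ lf X, ((nb G x ∩ (A' \ lf Y)).card : ℝ) :=
      Finset.sum_le_sum_of_subset_of_nonneg sdiff_subset fun _ _ _ => Nat.cast_nonneg _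
    have k4 : ∑ x ∈ (A' \ lf Y) \ Op, ((nb G x ∩ (A \ (A \ lf X))).card : ℝ) ≤
        ∑ x ∈ lf X, ((nb G x ∩ (A' \ lf Y)).card : ℝ) := by
      rw [sum_nb_comm G (lf X), Finset.sdiff_sdiff_eq_self (lf_sub X)]
      exact Finset.sum_le_sum_of_subset_of_nonneg sdiff_subset fun _ _ _ => Nat.cast_nonneg _
    have c1 : ((lf X).card : ℝ) = (lf X \ Op).card + (lf X ∩ Op).card := by
      rw [← Nat.cast_add, Finset.card_sdiff_add_card_inter]
    have c2 : ((A' \ lf Y).card : ℝ) = ((A' \ lf Y) \ Op).card + ((A' \ lf Y) ∩ Op).card := by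
      rw [← Nat.cast_add, Finset.card_sdiff_add_card_inter]
    have c3 : ((A' \ lf Y).card : ℝ) = A'.card - (lf Y).card := by
      rw [eq_sub_iff_add_eq, ← Nat.cast_add, Finset.card_sdiff_add_card_eq_card (lf_sub Y)]
    have c4 : ((A \ lf X).card : ℝ) = A.card - (lf X).card := by
      rw [eq_sub_iff_add_eq, ← Nat.cast_add, Finset.card_sdiff_add_card_eq_card (lf_sub X)]
    have c5 : (((rt Y)ᶜ).card : ℝ) = A.card + 2 * D - (rt Y).card := by
      rw [eq_sub_iff_add_eq]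
      have := Finset.card_compl_add_card (rt Y)
      rw [hcS] at this
      exact_mod_cast this
    have c6 : ((rt X).card : ℝ) ≤ A'.card + 2 * D := by
      have := Finset.card_le_univ (rt X)
      rw [hcS'] at this
      exact_mod_cast this
    have c7 : ((lf X).card : ℝ) ≤ A.card := by exact_mod_cast card_le_card (lf_sub X)
    have c8 : ((rt Y).card : ℝ) ≤ A.card + 2 * D := by
      have := Finset.card_le_univ (rt Y)
      rw [hcS] at this
      exact_mod_cast this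
    have c9 : ((lf Y).card : ℝ) ≤ A'.card := by exact_mod_cast card_le_card (lf_sub Y)
    have n1 : (0 : ℝ) ≤ (rt X).card := Nat.cast_nonneg _
    have n2 : (0 : ℝ) ≤ (lf X).card := Nat.cast_nonneg _
    have n3 : (0 : ℝ) ≤ (rt Y).card := Nat.cast_nonneg _
    have n4 : (0 : ℝ) ≤ (lf Y).card := Nat.cast_nonneg _
    have n5 : (0 : ℝ) ≤ (lf X ∩ Op).card := Nat.cast_nonneg _
    have n6 : (0 : ℝ) ≤ ((A' \ lf Y) ∩ Op).card := Nat.cast_nonneg _
    have n7 : (0 : ℝ) ≤ ∑ x ∈ lf X, ((nb G x ∩ (A' \ lf Y)).card : ℝ) :=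
      Finset.sum_nonneg fun _ _ => Nat.cast_nonneg _
    have n8 : (0 : ℝ) ≤ A.card := Nat.cast_nonneg _
    have n9 : (0 : ℝ) ≤ A'.card := Nat.cast_nonneg _
    set E := ∑ x ∈ lf X, ((nb G x ∩ (A' \ lf Y)).card : ℝ)
    set E1 := ∑ x ∈ lf X \ Op, ((nb G x ∩ (A' \ lf Y)).card : ℝ)
    set E2 := ∑ x ∈ (A' \ lf Y) \ Op, ((nb G x ∩ (A \ (A \ lf X))).card : ℝ)
    set a : ℝ := ((A.card : ℕ) : ℝ)
    set a' : ℝ := ((A'.card : ℕ) : ℝ)
    set X1 : ℝ := (((lf X).card : ℕ) : ℝ)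
    set Y1 : ℝ := (((lf Y).card : ℕ) : ℝ)
    set x2 : ℝ := (((rt X).card : ℕ) : ℝ)
    set y2 : ℝ := (((rt Y).card : ℕ) : ℝ)
    set P : ℝ := (((lf X ∩ Op).card : ℕ) : ℝ)
    set Q : ℝ := ((((A' \ lf Y) ∩ Op).card : ℕ) : ℝ)
    rw [c5]
    have m1 := mul_nonneg n5 n8
    have m2 := mul_nonneg n5 hD0
    have m3 := mul_nonneg n6 n9
    have m4 := mul_nonneg n6 hD0
    have m5 := mul_nonneg hD0 n4
    have m6 := mul_nonneg hD0 (sub_nonneg.2 c7)
    have m7 := mul_nonneg hD0 hD0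
    have m8 := mul_nonneg n8 n9
    have m9 := mul_nonneg hD0 n8
    have m10 := mul_nonneg hD0 n9
    -- the corners
    have C00 : 0 ≤ E + D * (Y1 + (a + 2 * D)) - D * X1 := by nlinarith
    have C01 : 0 ≤ E + D * Y1 - D * X1 + P * (a + 2 * D) := by
      rw [c1]
      nlinarith
    have C10 : 0 ≤ E + D * (Y1 + (a + 2 * D)) - D * X1 - D * (a' + 2 * D) +
        (a' + 2 * D) * Q := by
      have e1 : (((A' \ lf Y) \ Op).card : ℝ) = a' - Y1 - Q := by linarith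
      rw [e1, c4] at k2
      nlinarith
    have C11 : 0 ≤ E + D * Y1 - D * X1 - D * (a' + 2 * D) + (a' + 2 * D) * Q +
        P * (a + 2 * D) + (a' + 2 * D) * (a + 2 * D) := by
      nlinarith
    -- z2 = a + 2 D - y2
    have hz0 : 0 ≤ a + 2 * D - y2 := by linarith
    have hz1 : a + 2 * D - y2 ≤ a + 2 * D := by linarith
    have L0 : 0 ≤ (E + D * (Y1 + (a + 2 * D)) - D * X1) + (P - D) * (a + 2 * D - y2) := by
      apply lin C00 _ hz0 hz1
      nlinarith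
    have L1 : 0 ≤ (E + D * (Y1 + (a + 2 * D)) - D * X1 - D * (a' + 2 * D) +
        (a' + 2 * D) * Q) + (P - D + (a' + 2 * D)) * (a + 2 * D - y2) := by
      apply lin C10 _ hz0 hz1
      nlinarith
    have L2 : 0 ≤ ((E + D * (Y1 + (a + 2 * D)) - D * X1) + (P - D) * (a + 2 * D - y2)) +
        (Q - D + (a + 2 * D - y2)) * x2 := by
      apply lin L0 _ n1 c6
      nlinarith
    nlinarith
  exact_mod_cast hR

/-- FAC without conditions on the sizes. -/
theorem fac_all {V : Type u} [Fintype V] (G : SimpleGraph V) (q μ o δ : ℝ) (D : ℕ)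
    (A A' Op : Finset V) (hq : 0 < q) (hμ : 0 < μ) (hμ1 : μ ≤ 1) (ho : 0 < o) (ho1 : o ≤ 1)
    (hδ : 0 ≤ δ) (hδ1 : 20 * δ ≤ μ * o) (hD : (D : ℝ) ≤ (1 - μ) * q) (hAA : Disjoint A A')
    (h1 : ∀ v ∈ A, |((nb G v ∩ A').card : ℝ) - q| ≤ δ * q)
    (h2 : ∀ v ∈ A', |((nb G v ∩ A).card : ℝ) - q| ≤ δ * q)
    (h3 : ∀ v ∈ A, o * q ≤ ((nb G v ∩ A' ∩ Op).card : ℝ))
    (h4 : ∀ v ∈ A', o * q ≤ ((nb G v ∩ A ∩ Op).card : ℝ)) :
    ∃ M : Fin D → SimpleGraph V, (∀ i, M i ≤ G ∧ IsMat (M i)) ∧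
      (∀ i v w, (M i).Adj v w → (v ∈ A ∧ w ∈ A') ∨ (v ∈ A' ∧ w ∈ A)) ∧
      (∀ i j, i ≠ j → ∀ v w, (M i).Adj v w → ¬ (M j).Adj v w) ∧
      ∀ i, ∀ v ∈ A ∪ A', v ∉ Op → (nb (M i) v).Nonempty := by
  let S : Type u := ULift.{u} (Fin (A.card + 2 * D))
  let S' : Type u := ULift.{u} (Fin (A'.card + 2 * D))
  have hcS : Fintype.card S = A.card + 2 * D := by
    rw [Fintype.card_ulift, Fintype.card_fin]
  have hcS' : Fintype.card S' = A'.card + 2 * D := by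
    rw [Fintype.card_ulift, Fintype.card_fin]
  obtain ⟨M, hM1, hM2⟩ := Pool.Agent.Work.MP_db9399_exp.helper31.stmt_REG (A ⊕ S') (A' ⊕ S)
    (RlF G A A' Op S S') D (by
      rw [Fintype.card_sum, Fintype.card_sum, hcS, hcS', Fintype.card_coe, Fintype.card_coe]
      omega) (by
    intro X Y
    have hR' := reg_ineq G q μ o δ D A A' Op hq hμ hμ1 ho ho1 hδ hδ1 hD h1 h2 h3 h4 S S' hcS
      hcS' X Y
    convert hR')
  -- the matchings
  have irr : ∀ v, v ∈ A → v ∈ A' → False := fun v h h' => Finset.disjoint_left.1 hAA h h'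
  let MG : Fin D → SimpleGraph V := fun i =>
    { Adj := fun v w =>
        (∃ (hv : v ∈ A) (hw : w ∈ A'), M i (Sum.inl ⟨v, hv⟩) = Sum.inl ⟨w, hw⟩) ∨
        (∃ (hv : v ∈ A') (hw : w ∈ A), M i (Sum.inl ⟨w, hw⟩) = Sum.inl ⟨v, hv⟩)
      symm := by
        constructor
        rintro v w (⟨hv, hw, h⟩ | ⟨hv, hw, h⟩)
        · exact Or.inr ⟨hw, hv, h⟩
        · exact Or.inl ⟨hw, hv, h⟩
      loopless := by
        constructor
        rintro v (⟨hv, hw, -⟩ | ⟨hv, hw, -⟩)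
        · exact irr v hv hw
        · exact irr v hw hv }
  refine ⟨MG, ?_, ?_, ?_, ?_⟩
  · intro i
    constructor
    · rintro v w (⟨hv, hw, h⟩ | ⟨hv, hw, h⟩)
      · have := hM1 i (Sum.inl ⟨v, hv⟩)
        rw [h] at this
        exact this
      · have := hM1 i (Sum.inl ⟨w, hw⟩)
        rw [h] at this
        exact SimpleGraph.Adj.symm this
    · intro v
      rw [Finset.card_le_one]
      intro w hw w' hw'
      rw [mem_nb] at hw hw'
      rcases hw with ⟨hv, hw, h⟩ | ⟨hv, hw, h⟩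
      · rcases hw' with ⟨hv', hw', h'⟩ | ⟨hv', hw', h'⟩
        · rw [h] at h'
          exact congrArg Subtype.val (Sum.inl.inj h')
        · exact absurd hv' (fun hh => irr v hv hh)
      · rcases hw' with ⟨hv', hw', h'⟩ | ⟨hv', hw', h'⟩
        · exact absurd hv (fun hh => irr v hv' hh)
        · have := (M i).injective (h.trans h'.symm)
          exact congrArg Subtype.val (Sum.inl.inj this)
  · rintro i v w (⟨hv, hw, h⟩ | ⟨hv, hw, h⟩)
    · exact Or.inl ⟨hv, hw⟩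
    · exact Or.inr ⟨hv, hw⟩
  · rintro i j hij v w (⟨hv, hw, h⟩ | ⟨hv, hw, h⟩) (⟨hv', hw', h'⟩ | ⟨hv', hw', h'⟩)
    · exact hM2 i j hij _ (h.trans h'.symm)
    · exact irr v hv hv'
    · exact irr v hv' hv
    · exact hM2 i j hij _ (h.trans h'.symm)
  · intro i v hv hvO
    rcases mem_union.1 hv with hv | hv
    · have := hM1 i (Sum.inl ⟨v, hv⟩)
      rcases hy : M i (Sum.inl ⟨v, hv⟩) with y | a
      · exact ⟨y.1, by rw [mem_nb]; exact Or.inl ⟨hv, y.2, hy⟩⟩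
      · rw [hy] at this
        exact absurd this hvO
    · have h5 := hM1 i ((M i).symm (Sum.inl ⟨v, hv⟩))
      rw [Equiv.apply_symm_apply] at h5
      rcases hy : (M i).symm (Sum.inl ⟨v, hv⟩) with y | a
      · refine ⟨y.1, ?_⟩
        rw [mem_nb]
        refine Or.inr ⟨hv, y.2, ?_⟩
        rw [← (M i).apply_symm_apply (Sum.inl ⟨v, hv⟩), hy]
      · rw [hy] at h5
        exact absurd h5 hvO

theorem stmt_FAC : Stmt_FAC.{u} := by
  intro V _ G q μ o δ D A A' Op hq hμ hμ1 ho ho1 hδ hδ1 hD hAA _ _ h1 h2 h3 h4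
  exact fac_all G q μ o δ D A A' Op hq hμ hμ1 ho ho1 hδ hδ1 hD hAA h1 h2 h3 h4

end Pool.Agent.Work.MP_db9399_bg.helper31
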